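import Pool.Agent.Q61.MH.All2

/-!
# `s(r) = sup_k g(k;r) = max_{k ≤ ⌈r⌉} g(k;r)` for every `r > 0`

The definitions are in `Pool/Agent/Q61/MH/Def.lean`: `S k r = 1^r + … + k^r`,
`g k r = (2k-1)^r / S k r`, targets `IsTarget`, proposals `IsProposal`, the Metropolis–Hastings
transition probabilities `kernel`, `mom r q = E|X₀|^r`, `jump r q φ = E|X₁-X₀|^r` and the supremum
`s r` of their quotient.
-/

set_option autoImplicit false

namespace Pool.Agent.Results.MP_819a4a_pr.MaximumUpToCeiling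

open Pool.Agent.Q61.MH

/-- For every `r > 0` the supremum `s r` equals `sup_k g k r`, and it is attained at some
`k ≤ ⌈r⌉`. -/
theorem result : ∀ r : ℝ, 0 < r →
    s r = (⨆ (k : ℕ) (_ : 1 ≤ k), ENNReal.ofReal (g k r)) ∧
    ∃ k : ℕ, 1 ≤ k ∧ (k : ℤ) ≤ ⌈r⌉ ∧ (∀ j : ℕ, 1 ≤ j → g j r ≤ g k r) ∧
      s r = ENNReal.ofReal (g k r) :=
  fun r hr => final2 all_root all_uni all_supr all_unif all_off all_small all_pka all_pkb r hr

end Pool.Agent.Results.MP_819a4a_pr.MaximumUpToCeiling
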